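import Pool.Agent.H75Ten.O4

set_option autoImplicit false

namespace Pool.Agent.Results.MP_a18d4e_ag.OpenSetHereditary

variable {d : ℕ} {m n : Fin d → ℕ}

/-- `x` represents a complex singular tuple of the real tensor `T`: all `x k` are nonzero and, for
every `k`, the contraction of `T` with all `x i`, `i ≠ k`, is a scalar multiple of `x k`. -/
def IsSingularTuple (T : (∀ i : Fin d, Fin (m i + 1)) → ℝ) (x : ∀ i : Fin d, Fin (m i + 1) → ℂ) :
    Prop :=
  (∀ k : Fin d, x k ≠ 0) ∧
    ∀ k : Fin d, ∃ l : ℂ, ∀ j : Fin (m k + 1),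
      ∑ ι : (∀ i : Fin d, Fin (m i + 1)),
        (if ι k = j then (T ι : ℂ) * ∏ i ∈ Finset.univ.erase k, x i (ι i) else 0)
        = l * x k j

/-- `x` and `y` are the same point of the product of the projective spaces. -/
def SamePoint (x y : ∀ i : Fin d, Fin (m i + 1) → ℂ) : Prop :=
  ∀ k : Fin d, ∃ c : ℂ, c ≠ 0 ∧ ∀ j : Fin (m k + 1), x k j = c * y k j

/-- the number `c(m)` of the problem. -/
noncomputable def cNumber (m : Fin d → ℕ) : ℤ :=
  MvPolynomial.coeff (Finsupp.equivFunOnFinite.symm m)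
    (∏ k : Fin d, ∑ j ∈ Finset.range (m k + 1),
      (∑ i ∈ Finset.univ.erase k, (MvPolynomial.X i : MvPolynomial (Fin d) ℤ)) ^ j
        * (MvPolynomial.X k : MvPolynomial (Fin d) ℤ) ^ (m k - j))

/-- the real tensor `T` has exactly `c(m)` complex singular tuples, and all of them are real. -/
def FullyReal (T : (∀ i : Fin d, Fin (m i + 1)) → ℝ) : Prop :=
  ∃ (N : ℕ) (r : Fin N → ∀ i : Fin d, Fin (m i + 1) → ℝ),
    (N : ℤ) = cNumber m ∧
    (∀ x : ∀ i : Fin d, Fin (m i + 1) → ℂ,
      IsSingularTuple T x ↔ ∃ a : Fin N, SamePoint x (fun k j => (r a k j : ℂ))) ∧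
    (∀ a a' : Fin N,
      SamePoint (fun k j => (r a' k j : ℂ)) (fun k j => (r a k j : ℂ)) → a = a')

/-- the leading subtensor of format `m ≤ n`: the entries with all indices at most `m`. -/
def lead (h : m ≤ n) (T : (∀ i : Fin d, Fin (n i + 1)) → ℝ) : (∀ i : Fin d, Fin (m i + 1)) → ℝ :=
  fun ι => T fun i => Fin.castLE (Nat.succ_le_succ (h i)) (ι i)

/-- For every format there is a nonempty open set of real tensors all of whose leading subtensors
(in particular the tensors themselves) have exactly `c(m)` complex singular tuples, all real; and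
there is an integer tensor with this property. -/
theorem result (d : ℕ) (n : Fin d → ℕ) :
    (∃ U : Set ((∀ i : Fin d, Fin (n i + 1)) → ℝ), IsOpen U ∧ U.Nonempty ∧
      ∀ T ∈ U, ∀ (m : Fin d → ℕ) (h : m ≤ n), FullyReal (lead h T)) ∧
    (∃ T : (∀ i : Fin d, Fin (n i + 1)) → ℤ,
      ∀ (m : Fin d → ℕ) (h : m ≤ n), FullyReal (lead h fun ι => (T ι : ℝ))) :=
  ⟨H75Ten.open_set d n, H75Ten.integer_tensor d n⟩

end Pool.Agent.Results.MP_a18d4e_ag.OpenSetHereditary
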